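import Mathlib
import Pool.Agent.H10.EqPoly

set_option autoImplicit false

namespace Pool.Agent.Results.MP_349919_co.Convex

open Complex Finset Pool.Agent.H10.EqPoly

/-- The lattice generated by (1,0) and (0,sqrt m), the plane being identified with the complex numbers. -/
def Lam (m : ℕ) : Set ℂ := {z | ∃ a b : ℤ, z.re = a ∧ z.im = b * Real.sqrt m}

/-- The determinant of two plane vectors. -/
def cross (z w : ℂ) : ℝ := z.re * w.im - z.im * w.re

/-- `v` lists counterclockwise the vertices of a strictly convex polygon: every vertex other than the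
two ends of a side lies strictly to the left of the directed line of that side. -/
def IsConvexPolygon {n : ℕ} (v : ZMod n → ℂ) : Prop :=
  ∀ i j : ZMod n, j ≠ i → j ≠ i + 1 → 0 < cross (v (i + 1) - v i) (v j - v i)

def IsEquilateral {n : ℕ} (v : ZMod n → ℂ) : Prop :=
  ∃ L : ℝ, 0 < L ∧ ∀ i : ZMod n, dist (v (i + 1)) (v i) = L

lemma clear (s : ℝ) (T : Finset ℂ) (h : ∀ z ∈ T, InK s z) :
    ∃ D : ℕ, 0 < D ∧ ∀ z ∈ T, ∃ a b : ℤ, (D * z).re = a ∧ (D * z).im = b * s := by
  classical
  induction T using Finset.induction_on with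
  | empty => exact ⟨1, one_pos, by simp⟩
  | insert x T hx ih =>
    obtain ⟨D, hD, hT⟩ := ih (fun z hz => h z (mem_insert_of_mem hz))
    obtain ⟨p, q, hp, hq⟩ := h x (mem_insert_self _ _)
    refine ⟨D * (p.den * q.den), Nat.mul_pos hD (Nat.mul_pos p.den_pos q.den_pos), ?_⟩
    intro z hz
    rcases mem_insert.1 hz with rfl | hz
    · have e1 : (p : ℝ) * p.den = p.num := by exact_mod_cast Rat.mul_den_eq_num p
      have e2 : (q : ℝ) * q.den = q.num := by exact_mod_cast Rat.mul_den_eq_num q
      refine ⟨D * q.den * p.num, D * p.den * q.num, ?_, ?_⟩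
      · simp [hp, ← e1]; ring
      · simp [hq, ← e2]; ring
    · obtain ⟨a, b, ha, hb⟩ := hT z hz
      simp only [mul_re, natCast_re, natCast_im, zero_mul, sub_zero, mul_im, add_zero] at ha hb
      refine ⟨p.den * q.den * a, p.den * q.den * b, ?_, ?_⟩
      · simp [← ha]; ring
      · simp only [mul_im, natCast_re, natCast_im, zero_mul, add_zero]; push_cast
        rw [mul_assoc _ (b : ℝ) s, ← hb]; ring

lemma polygon (n : ℕ) (hn : 0 < n) (T : Finset ℂ) (hc : T.card = n) (h1 : ∀ z ∈ T, normSq z = 1)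
    (h0 : ∑ z ∈ T, z = 0) :
    ∃ E : ℕ → ℂ, (∀ k, E k ∈ T) ∧ Function.Periodic (fun k => ∑ j ∈ range k, E j) n ∧
      ∀ i r : ℕ, 1 ≤ r → r + 2 ≤ n → 0 < cross (E i) (∑ t ∈ range (r + 1), E (i + t)) := by
  classical
  have hnorm : ∀ z ∈ T, ‖z‖ = 1 := by
    intro z hz
    have := h1 z hz; rw [normSq_eq_norm_sq] at this
    nlinarith [norm_nonneg z]
  have hexp : ∀ z ∈ T, exp (arg z * I) = z := by
    intro z hz
    have := norm_mul_exp_arg_mul_I z
    rwa [hnorm z hz, ofReal_one, one_mul] at this
  have hinj : Set.InjOn arg (T : Set ℂ) := by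
    intro x hx y hy e
    rw [← hexp x hx, ← hexp y hy, e]
  have hA : (T.image arg).card = n := by rw [card_image_of_injOn hinj, hc]
  let θ := (T.image arg).orderEmbOfFin hA
  have hθ : ∀ k, ∃ z ∈ T, arg z = θ k := fun k =>
    mem_image.1 (Finset.orderEmbOfFin_mem _ hA k)
  let Θ : ℕ → ℝ := fun k => θ ⟨k % n, Nat.mod_lt _ hn⟩ + (k / n : ℕ) * (2 * Real.pi)
  have hΘn : ∀ k, Θ (k + n) = Θ k + 2 * Real.pi := by
    intro k
    simp only [Θ, Nat.add_mod_right, Nat.add_div_right _ hn]
    push_cast; ring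
  have hmono : StrictMono Θ := by
    apply strictMono_nat_of_lt_succ
    intro k
    simp only [Θ]
    by_cases hk : k % n + 1 < n
    · have e1 : (k + 1) % n = k % n + 1 := by
        rw [Nat.add_mod, Nat.mod_eq_of_lt (show 1 < n by omega), Nat.mod_eq_of_lt hk]
      have e2 : (k + 1) / n = k / n := by
        have a1 := Nat.div_add_mod (k + 1) n
        have a2 := Nat.div_add_mod k n
        have : n * ((k + 1) / n) = n * (k / n) := by omega
        exact Nat.eq_of_mul_eq_mul_left hn this
      rw [e2]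
      have : θ ⟨k % n, Nat.mod_lt _ hn⟩ < θ ⟨(k + 1) % n, Nat.mod_lt _ hn⟩ :=
        θ.strictMono (by simp [Fin.lt_def, e1])
      linarith
    · have hk' : k % n + 1 = n := by have := Nat.mod_lt k hn; omega
      have e2 : (k + 1) / n = k / n + 1 := by
        have a2 := Nat.div_add_mod k n
        have : k + 1 = n * (k / n + 1) := by rw [mul_add, mul_one]; omega
        rw [this, Nat.mul_div_cancel_left _ hn]
      rw [e2]
      obtain ⟨z, _, hz⟩ := hθ ⟨k % n, Nat.mod_lt _ hn⟩
      obtain ⟨w, _, hw⟩ := hθ ⟨(k + 1) % n, Nat.mod_lt _ hn⟩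
      rw [← hz, ← hw]
      have := arg_le_pi z
      have := neg_pi_lt_arg w
      push_cast; linarith
  let E : ℕ → ℂ := fun k => exp (Θ k * I)
  have hE : ∀ k, E k = exp (θ ⟨k % n, Nat.mod_lt _ hn⟩ * I) := by
    intro k
    simp only [E, Θ]
    push_cast
    rw [add_mul, exp_add, mul_assoc, exp_nat_mul_two_pi_mul_I, mul_one]
  have hEn : ∀ k, E (k + n) = E k := by
    intro k; rw [hE, hE]; simp only [Nat.add_mod_right]
  have hsum0 : ∑ j ∈ range n, E j = 0 := by
    rw [← h0, Finset.sum_range (fun j => E j)]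
    have e1 : ∑ z ∈ T, z = ∑ x ∈ T.image arg, exp ((x : ℂ) * I) := by
      rw [sum_image hinj]
      exact sum_congr rfl fun z hz => (hexp z hz).symm
    rw [e1]
    have e2 : T.image arg = univ.map θ.toEmbedding := by
      simp [θ]
    rw [e2, sum_map]
    refine sum_congr rfl fun k _ => ?_
    rw [hE]
    simp [Nat.mod_eq_of_lt k.2]
  have hshift : ∀ i, ∑ t ∈ range n, E (i + t) = 0 := by
    intro i
    induction i with
    | zero => simpa using hsum0
    | succ i ih =>
      have a1 := sum_range_succ (fun t => E (i + t)) n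
      have a2 := sum_range_succ' (fun t => E (i + t)) n
      have a3 : ∑ t ∈ range n, E (i + 1 + t) = ∑ t ∈ range n, E (i + (t + 1)) :=
        sum_congr rfl fun t _ => by congr 1; ring
      rw [a3]
      rw [hEn, ih] at a1
      simp only [add_zero] at a2
      linear_combination a1 - a2
  refine ⟨E, ?_, ?_, ?_⟩
  · intro k
    obtain ⟨z, hz, e⟩ := hθ ⟨k % n, Nat.mod_lt _ hn⟩
    rw [hE, ← e, hexp z hz]; exact hz
  · intro k
    simp only
    rw [sum_range_add, hshift, add_zero]
  · intro i r hr hrn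
    have hcr : ∀ (A : Finset ℕ), cross (E i) (∑ t ∈ A, E (i + t))
        = ∑ t ∈ A, Real.sin (Θ (i + t) - Θ i) := by
      intro A
      simp only [cross, re_sum, im_sum, mul_sum, ← sum_sub_distrib]
      refine sum_congr rfl fun t _ => ?_
      simp only [E, exp_ofReal_mul_I_re, exp_ofReal_mul_I_im, Real.sin_sub]; ring
    rw [hcr]
    by_cases hφ : Θ (i + r) - Θ i < Real.pi
    · rw [sum_range_succ']
      simp only [add_zero, sub_self, Real.sin_zero]
      apply sum_pos
      · intro t ht
        have ht' := mem_range.1 ht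
        apply Real.sin_pos_of_pos_of_lt_pi
        · have := hmono (show i < i + (t + 1) by omega); linarith
        · have := hmono.monotone (show i + (t + 1) ≤ i + r by omega); linarith
      · exact ⟨0, mem_range.2 (by omega)⟩
    · have tot : ∑ t ∈ range n, Real.sin (Θ (i + t) - Θ i) = 0 := by
        rw [← hcr, hshift]; simp [cross]
      have split := sum_range_add_sum_Ico (fun t => Real.sin (Θ (i + t) - Θ i))
        (show r + 1 ≤ n by omega)
      have neg : ∑ t ∈ Ico (r + 1) n, Real.sin (Θ (i + t) - Θ i) < 0 := by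
        apply sum_neg
        · intro t ht
          have ht' := mem_Ico.1 ht
          have a1 := hmono (show i + r < i + t by omega)
          have a2 := hmono (show i + t < i + n by omega)
          rw [hΘn] at a2
          rw [← Real.sin_sub_two_pi]
          apply Real.sin_neg_of_neg_of_neg_pi_lt <;> linarith
        · exact ⟨r + 1, mem_Ico.2 (by omega)⟩
      linarith

theorem result (m : ℕ) (h3 : m % 4 = 3) :
    ∃ N : ℕ, ∀ n : ℕ, N ≤ n → ∃ v : ZMod n → ℂ,
      (∀ i, v i ∈ Lam m) ∧ IsEquilateral v ∧ IsConvexPolygon v := by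
  refine ⟨5 * m, fun n hn => ?_⟩
  have hn0 : 0 < n := by omega
  have : NeZero n := ⟨hn0.ne'⟩
  have hs : Real.sqrt m * Real.sqrt m = m := Real.mul_self_sqrt (Nat.cast_nonneg m)
  obtain ⟨T, hc, hU, h0⟩ := good_all hs h3 n hn
  obtain ⟨D, hD, hT⟩ := clear (Real.sqrt m) T (fun z hz => (hU z hz).1)
  obtain ⟨E, hET, hper, hpos⟩ := polygon n hn0 T hc (fun z hz => (hU z hz).2) h0
  have hD' : (0 : ℝ) < D := by exact_mod_cast hD
  let V : ℕ → ℂ := fun k => ∑ j ∈ range k, E j
  have hV : ∀ k : ℕ, V ((k : ZMod n).val) = V k := by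
    intro k
    rw [ZMod.val_natCast]
    exact hper.map_mod_nat k
  have hVadd : ∀ (i : ZMod n) (k : ℕ), V ((i + k).val) = V i.val + ∑ t ∈ range k, E (i.val + t) := by
    intro i k
    have : i + k = ((i.val + k : ℕ) : ZMod n) := by simp
    rw [this, hV]
    exact sum_range_add _ _ _
  have hV1 : ∀ i : ZMod n, V ((i + 1).val) = V i.val + E i.val := by
    intro i
    simpa using hVadd i 1
  refine ⟨fun i => D * V i.val, ?_, ⟨D, hD', ?_⟩, ?_⟩
  · intro i
    simp only [V]
    generalize i.val = k
    induction k with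
    | zero => exact ⟨0, 0, by simp, by simp⟩
    | succ k ih =>
      obtain ⟨a, b, ha, hb⟩ := ih
      obtain ⟨c, d, hc', hd⟩ := hT _ (hET k)
      refine ⟨a + c, b + d, ?_, ?_⟩
      · rw [sum_range_succ, mul_add, add_re, ha, hc']; push_cast; ring
      · rw [sum_range_succ, mul_add, add_im, hb, hd]; push_cast; ring
  · intro i
    have := (hU _ (hET i.val)).2
    rw [normSq_eq_norm_sq] at this
    have h1 : ‖E i.val‖ = 1 := by nlinarith [norm_nonneg (E i.val)]
    simp only [hV1, dist_eq_norm, mul_add, add_sub_cancel_left, norm_mul, h1]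
    simp
  · intro i j hji hji1
    have hlt := ZMod.val_lt (j - i)
    have hj : j = i + ((j - i).val : ℕ) := by simp
    have hk0 : (j - i).val ≠ 0 := by
      intro e; rw [e] at hj; exact hji (by simpa using hj)
    have hk1 : (j - i).val ≠ 1 := by
      intro e; rw [e] at hj; exact hji1 (by simpa using hj)
    obtain ⟨r, hr⟩ : ∃ r, (j - i).val = r + 1 := ⟨(j - i).val - 1, by omega⟩
    have := hpos i.val r (by omega) (by omega)
    rw [hr] at hj
    simp only
    rw [hV1, hj, hVadd]
    simp only [mul_add, add_sub_cancel_left]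
    have e : ∀ z w : ℂ, cross (D * z) (D * w) = D * D * cross z w := by
      intro z w; simp [cross]; ring
    rw [e]; positivity

end Pool.Agent.Results.MP_349919_co.Convex
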